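import Mathlib
import Pool.Agent.TH964.FC.Defs2
import Pool.Agent.TH964.FC.Moment

set_option autoImplicit false

/-!
The coding radius of finitary factor of iid proper 3-colourings of `ℤ^d`, `d ≥ 2`: a tail bound
`P (R ≥ r + 1) ≥ 1 / (1600 (r + 1))` for every law of the labels, and infinite moments of all
orders `α ≥ 1`; so no exponent `α ≥ 1` is attained.
-/

namespace Pool.Agent.Results.MP_69ceda_pr.UniversalTail

open MeasureTheory Pool.Agent.TH964.FC
open scoped ENNReal

/-- For every `d ≥ 2`, every law of the labels and every finitary factor of iid 3-colouring of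
`ℤ^d`, the coding radius `R` satisfies `P (R ≥ r + 1) ≥ 1 / (1600 (r + 1))` for all `r`, the lower
integral of `R ^ α` is infinite for every `α ≥ 1`, and so `R` has no finite `α`-moment. -/
theorem result (d : ℕ) (hd : 2 ≤ d) (T : Type) [MeasurableSpace T] (ν : Measure T)
    [IsProbabilityMeasure ν] (F : (Site d → T) → (Site d → Fin 3)) (hF : IsFfiidColouring ν F) :
    (∀ r : ℕ, ∃ B : Set (Site d → T), MeasurableSet B ∧
      (∀ ω ∈ B, ((r + 1 : ℕ) : ℕ∞) ≤ codingRadius F ω) ∧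
      (1 : ℝ≥0∞) / (1600 * (r + 1)) ≤ (iidLaw d ν) B) ∧
    (∀ α : ℝ, 1 ≤ α → ∫⁻ ω, ((codingRadius F ω : ℕ∞) : ℝ≥0∞) ^ α ∂(iidLaw d ν) = ⊤) ∧
    ∀ α : ℝ, 1 ≤ α → ¬ FiniteMoment ν F α := by
  refine ⟨fun r => tail_radius ν hd hF r, fun α hα => lintegral_top ν hd hF hα, ?_⟩
  rintro α hα ⟨g, _, hle, hfin⟩
  apply hfin
  rw [eq_top_iff, ← lintegral_top ν hd hF hα]
  exact lintegral_mono hle

end Pool.Agent.Results.MP_69ceda_pr.UniversalTail
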